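import Pool.Agent.H821Z.Kok.Main

namespace Pool.Agent.Results.MP_b27eb5_al.AllFields

open Pool.Agent.H821Z.Kok

universe u

/-- Over a field of characteristic not two, every simple Kokoris algebra that lies in a locally
admissible variety is a field. -/
theorem result (F : Type u) [Field F] (h2 : (2 : F) ≠ 0) (Γ : Set (NAPoly F))
    (hΓ : LocallyAdmissible Γ) (A : Alg F) (hA : A.InVar Γ) (hK : A.IsKokoris)
    (hs : A.IsSimple) : A.IsFieldAlg :=
  simple_kokoris_field h2 hΓ hA hK hs

end Pool.Agent.Results.MP_b27eb5_al.AllFields
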